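import Pool.Agent.K3h22.EX.Stm6

/-! Brick CONE2 (project ET of helper22): a point of `Q` in a rational cone can be moved to one of
large rational rank. -/

set_option autoImplicit false

namespace Pool.Agent.K3h24.ET

open Filter Topology Set Pool.Agent.K3h22.EX

/-- the linear form with integer coefficients `q` -/
noncomputable def Fm {n : ℕ} (q : Fin n → ℤ) : (Fin n → ℝ) →ₗ[ℝ] ℝ :=
  ∑ j, (q j : ℝ) • LinearMap.proj j

theorem Fm_apply {n : ℕ} (q : Fin n → ℤ) (x : Fin n → ℝ) :
    Fm q x = ∑ j, (q j : ℝ) * x j := by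
  simp [Fm, LinearMap.sum_apply]

theorem GQ_fin {n : ℕ} {Q : Submodule ℝ (Fin n → ℝ)} (h : GQ Q) {ι : Type} [Finite ι]
    (M : ι → Fin n → ℤ) :
    (∀ x ∈ Q, (∀ i, Fm (M i) x = 0) → x = 0) ∨
    ∀ x : Fin n → ℝ, ∃ q ∈ Q, ∀ i, Fm (M i) q = Fm (M i) x := by
  obtain ⟨k, ⟨e⟩⟩ := Finite.exists_equiv_fin ι
  rcases h k (fun a => M (e.symm a)) with h1 | h1
  · left
    intro x hx hM
    apply h1 x hx
    intro i
    rw [← Fm_apply]
    exact hM _
  · right
    intro x
    obtain ⟨q, hq, hq2⟩ := h1 x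
    refine ⟨q, hq, fun i => ?_⟩
    have := hq2 (e i)
    simp only [Equiv.symm_apply_apply] at this
    rw [Fm_apply, Fm_apply]
    exact this

/-- `d` coordinates which are independent on `d` independent vectors -/
theorem exists_cols {n d : ℕ} (W : Fin d → Fin n → ℝ) (hW : LinearIndependent ℝ W) :
    ∃ B : Finset (Fin n), B.card = d ∧ ∀ c : {i // i ∈ B} → ℝ,
      (∀ i, ∑ b, c b * W i b = 0) → c = 0 := by
  classical
  set col : Fin n → (Fin d → ℝ) := fun j i => W i j with hcol
  have htop : Submodule.span ℝ (Set.range col) = ⊤ := by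
    by_contra hne
    obtain ⟨f, hf0, hf⟩ := Submodule.exists_le_ker_of_lt_top _ (lt_top_iff_ne_top.mpr hne)
    apply hf0
    have hfi : ∀ x : Fin d → ℝ, f x = ∑ i, x i * f (Pi.single i 1) := by
      intro x
      conv_lhs => rw [← Finset.univ_sum_single x]
      rw [map_sum]
      refine Finset.sum_congr rfl fun i _ => ?_
      have : Pi.single i (x i) = x i • (Pi.single i (1 : ℝ) : Fin d → ℝ) := by
        rw [← Pi.single_smul]; simp
      rw [this, map_smul, smul_eq_mul]
    have hz : ∑ i, f (Pi.single i 1) • W i = 0 := by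
      funext j
      have h1 : f (col j) = 0 := hf (Submodule.subset_span ⟨j, rfl⟩)
      rw [hfi] at h1
      simp only [Finset.sum_apply, Pi.smul_apply, smul_eq_mul, Pi.zero_apply]
      rw [← h1]
      exact Finset.sum_congr rfl fun i _ => by rw [hcol]; ring
    have hz2 := (Fintype.linearIndependent_iff.mp hW) _ hz
    ext i
    simp [hz2]
  obtain ⟨κ, a, ha, hspan, hli⟩ := exists_linearIndependent' ℝ col
  have hfin : Finite κ := Finite.of_injective a ha
  have : Fintype κ := Fintype.ofFinite κ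
  have hcard : Fintype.card κ = d := by
    have h1 := finrank_span_eq_card hli
    rw [hspan, htop, finrank_top] at h1
    simpa using h1.symm
  refine ⟨Finset.univ.map ⟨a, ha⟩, by simp [hcard], ?_⟩
  intro c hc
  have hmem : ∀ k, a k ∈ Finset.univ.map ⟨a, ha⟩ := fun k => by simp
  set e : κ ≃ {i // i ∈ Finset.univ.map ⟨a, ha⟩} :=
    Equiv.ofBijective (fun k => ⟨a k, hmem k⟩) ⟨fun x y hxy => ha (by simpa using hxy), by
      rintro ⟨j, hj⟩
      simp only [Finset.mem_map, Finset.mem_univ, Function.Embedding.coeFn_mk, true_and] at hj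
      obtain ⟨k, rfl⟩ := hj
      exact ⟨k, rfl⟩⟩ with he
  have h0 : ∑ k, c (e k) • (col ∘ a) k = 0 := by
    funext i
    simp only [Finset.sum_apply, Pi.smul_apply, smul_eq_mul, Pi.zero_apply, Function.comp]
    rw [← hc i, ← e.sum_comp]
    rfl
  have h1 := (Fintype.linearIndependent_iff.mp hli) _ h0
  funext b
  obtain ⟨k, rfl⟩ := e.surjective b
  exact h1 k

theorem t_CONE2 : Pool.Agent.K3h22.EX.S_CONE2 := by
  intro n d Q hQ I _ p w₀ hw₀Q hw₀ hw₀p hW
  classical
  have : Fintype I := Fintype.ofFinite I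
  set sig : Set (Fin n → ℝ) := {w | ∀ i, 0 ≤ ∑ j, (p i j : ℝ) * w j} with hsig
  have hsigmem : ∀ w, w ∈ sig ↔ ∀ i, 0 ≤ Fm (p i) w := by
    intro w; simp only [hsig, Set.mem_ofPred_eq, Fm_apply]
  have hw₀s : w₀ ∈ sig := hw₀p
  -- the forms vanishing on sig
  set I0 : Set I := {i | ∀ w ∈ sig, Fm (p i) w = 0} with hI0
  -- v0
  have hwit : ∀ i, ∃ v ∈ sig, i ∉ I0 → 0 < Fm (p i) v := by
    intro i
    by_cases hi : i ∈ I0
    · exact ⟨w₀, hw₀s, fun h => absurd hi h⟩
    · have : ∃ w ∈ sig, Fm (p i) w ≠ 0 := by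
        by_contra hcon
        push Not at hcon
        exact hi hcon
      obtain ⟨w, hw, hne⟩ := this
      exact ⟨w, hw, fun _ => lt_of_le_of_ne ((hsigmem w).mp hw i) (Ne.symm hne)⟩
  choose wit hwits hwitp using hwit
  set v0 : Fin n → ℝ := ∑ i, wit i with hv0
  have hv0p : ∀ i, i ∉ I0 → 0 < Fm (p i) v0 := by
    intro i hi
    rw [hv0, map_sum]
    exact Finset.sum_pos' (fun k _ => (hsigmem _).mp (hwits k) i)
      ⟨i, Finset.mem_univ _, hwitp i hi⟩
  have hv00 : ∀ i, i ∈ I0 → Fm (p i) v0 = 0 := by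
    intro i hi
    rw [hv0, map_sum]
    exact Finset.sum_eq_zero fun k _ => hi _ (hwits k)
  -- N
  set N : Submodule ℝ (Fin n → ℝ) := ⨅ i ∈ I0, LinearMap.ker (Fm (p i)) with hN
  have hNmem : ∀ w, w ∈ N ↔ ∀ i ∈ I0, Fm (p i) w = 0 := by
    intro w
    simp [hN, Submodule.mem_iInf]
  have hspanN : Submodule.span ℝ sig ≤ N := by
    rw [Submodule.span_le]
    intro w hw
    rw [SetLike.mem_coe, hNmem]
    exact fun i hi => hi w hw
  -- w1
  have hw1 : ∃ w1 ∈ Q, w1 ∈ N ∧ w1 ≠ 0 ∧ ∀ i, i ∉ I0 → 0 < Fm (p i) w1 := by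
    rcases GQ_fin hQ (fun i : {i // Fm (p i) w₀ = 0} => p i) with h1 | h1
    · exact absurd (h1 w₀ hw₀Q fun i => i.2) hw₀
    · obtain ⟨q, hqQ, hq⟩ := h1 v0
      have hcont : ∀ i, Continuous fun ε : ℝ => Fm (p i) (w₀ + ε • q) := by
        intro i
        simp only [map_add, map_smul, smul_eq_mul]
        fun_prop
      have hev1 : ∀ᶠ ε in 𝓝[>] (0 : ℝ), ∀ i, Fm (p i) w₀ ≠ 0 → 0 < Fm (p i) (w₀ + ε • q) := by
        rw [Filter.eventually_all]
        intro i
        by_cases hi : Fm (p i) w₀ = 0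
        · exact Filter.Eventually.of_forall fun _ h => absurd hi h
        · have hpos : 0 < Fm (p i) (w₀ + (0 : ℝ) • q) := by
            rw [zero_smul, add_zero]
            exact lt_of_le_of_ne ((hsigmem w₀).mp hw₀s i) (Ne.symm hi)
          have := (hcont i).continuousAt.eventually (lt_mem_nhds hpos)
          exact (this.filter_mono nhdsWithin_le_nhds).mono fun _ h _ => h
      have hev2 : ∀ᶠ ε in 𝓝[>] (0 : ℝ), w₀ + ε • q ≠ 0 := by
        have hc : Continuous fun ε : ℝ => w₀ + ε • q := by fun_prop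
        have h0 : w₀ + (0 : ℝ) • q ∈ ({0}ᶜ : Set (Fin n → ℝ)) := by simpa using hw₀
        have := hc.continuousAt.eventually (isOpen_compl_singleton.mem_nhds h0)
        exact (this.filter_mono nhdsWithin_le_nhds).mono fun _ h => h
      have hev3 : ∀ᶠ ε in 𝓝[>] (0 : ℝ), 0 < ε := eventually_mem_nhdsWithin
      obtain ⟨ε, h1, h2, h3⟩ := (hev1.and (hev2.and hev3)).exists
      refine ⟨w₀ + ε • q, Q.add_mem hw₀Q (Q.smul_mem _ hqQ), ?_, h2, ?_⟩
      · rw [hNmem]
        intro i hi
        have hi0 : Fm (p i) w₀ = 0 := hi _ hw₀s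
        have := hq ⟨i, hi0⟩
        simp only at this
        rw [map_add, map_smul, hi0, this, hv00 i hi]
        simp
      · intro i hi
        by_cases hi0 : Fm (p i) w₀ = 0
        · have := hq ⟨i, hi0⟩
          simp only at this
          rw [map_add, map_smul, hi0, this, zero_add, smul_eq_mul]
          exact mul_pos h3 (hv0p i hi)
        · exact h1 i hi0
  obtain ⟨w1, hw1Q, hw1N, hw10, hw1p⟩ := hw1
  -- integer forms which do not vanish on N do not vanish on Q ⊓ N
  have hkey : ∀ lam : Fin n → ℤ, (∃ x ∈ N, Fm lam x ≠ 0) → ∃ x ∈ Q ⊓ N, Fm lam x ≠ 0 := by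
    rintro lam ⟨x, hxN, hx⟩
    by_contra hcon
    push Not at hcon
    rcases GQ_fin hQ (fun o : Option {i // i ∈ I0} => o.elim lam fun i => p i) with h1 | h1
    · apply hw10
      apply h1 w1 hw1Q
      rintro (_ | i)
      · exact hcon w1 ⟨hw1Q, hw1N⟩
      · exact (hNmem w1).mp hw1N i i.2
    · obtain ⟨q, hqQ, hq⟩ := h1 x
      have hqN : q ∈ N := by
        rw [hNmem]
        intro i hi
        have := hq (some ⟨i, hi⟩)
        simp only [Option.elim_some] at this
        rw [this]
        exact (hNmem x).mp hxN i hi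
      have := hq none
      simp only [Option.elim_none] at this
      exact hx (by rw [← this]; exact hcon q ⟨hqQ, hqN⟩)
  -- Baire
  set X := ↥(Q ⊓ N) with hX
  have : CompleteSpace X := FiniteDimensional.complete ℝ X
  set S : Set (Fin n → ℤ) := {lam | ∃ x ∈ N, Fm lam x ≠ 0} with hS
  have hcontF : ∀ lam : Fin n → ℤ, Continuous fun x : X => Fm lam (x : Fin n → ℝ) := by
    intro lam
    have h1 : Continuous fun x : Fin n → ℝ => Fm lam x := by
      simp only [Fm_apply]; fun_prop
    exact h1.comp continuous_subtype_val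
  have hdense : Dense (⋂ lam ∈ S, {x : X | Fm lam (x : Fin n → ℝ) ≠ 0}) := by
    apply dense_biInter_of_isOpen
    · intro lam _
      exact isOpen_ne_fun (hcontF lam) continuous_const
    · exact Set.to_countable _
    · intro lam hlam
      set K : Submodule ℝ X := LinearMap.ker ((Fm lam).comp (Q ⊓ N).subtype) with hK
      have hKne : K ≠ ⊤ := by
        intro htop
        obtain ⟨x, hx, hx2⟩ := hkey lam hlam
        apply hx2
        have : (⟨x, hx⟩ : X) ∈ K := by rw [htop]; trivial
        simpa [hK] using this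
      have hint : interior (K : Set X) = ∅ := by
        by_contra hne
        exact hKne (Submodule.eq_top_of_nonempty_interior' K
          (Set.nonempty_iff_ne_empty.mpr hne))
      have := interior_eq_empty_iff_dense_compl.mp hint
      have heq : {x : X | Fm lam (x : Fin n → ℝ) ≠ 0} = (K : Set X)ᶜ := by
        ext x
        exact Iff.rfl
      rw [heq]
      exact this
  have hopen : IsOpen {x : X | ∀ i, i ∉ I0 → 0 < Fm (p i) (x : Fin n → ℝ)} := by
    have : {x : X | ∀ i, i ∉ I0 → 0 < Fm (p i) (x : Fin n → ℝ)} =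
        ⋂ i : I, {x : X | i ∉ I0 → 0 < Fm (p i) (x : Fin n → ℝ)} := by
      ext x; simp
    rw [this]
    apply isOpen_iInter_of_finite
    intro i
    by_cases hi : i ∈ I0
    · have : {x : X | i ∉ I0 → 0 < Fm (p i) (x : Fin n → ℝ)} = Set.univ := by
        ext x; simp [hi]
      rw [this]; exact isOpen_univ
    · have : {x : X | i ∉ I0 → 0 < Fm (p i) (x : Fin n → ℝ)} =
          {x : X | 0 < Fm (p i) (x : Fin n → ℝ)} := by
        ext x; simp [hi]
      rw [this]; exact isOpen_lt continuous_const (hcontF _)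
  obtain ⟨w, hwO, hwS⟩ := hdense.inter_open_nonempty _ hopen
    ⟨⟨w1, hw1Q, hw1N⟩, fun i hi => hw1p i hi⟩
  obtain ⟨W, hWli, hWs⟩ := hW
  obtain ⟨B, hBc, hB⟩ := exists_cols W hWli
  refine ⟨w, w.2.1, ?_, B, hBc, ?_⟩
  · intro i
    rw [← Fm_apply]
    by_cases hi : i ∈ I0
    · exact ((hNmem _).mp w.2.2 i hi).ge
    · exact (hwO i hi).le
  · intro m hm
    set lam : Fin n → ℤ := fun j => if h : j ∈ B then m ⟨j, h⟩ else 0 with hlam
    have hFl : ∀ x : Fin n → ℝ, Fm lam x = ∑ b, (m b : ℝ) * x b := by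
      intro x
      rw [Fm_apply]
      calc ∑ j, (lam j : ℝ) * x j = ∑ j ∈ B, (lam j : ℝ) * x j :=
            (Finset.sum_subset (Finset.subset_univ B) fun j _ hj => by simp [hlam, hj]).symm
        _ = ∑ b : {i // i ∈ B}, (lam b : ℝ) * x b :=
            (Finset.sum_coe_sort B fun j => (lam j : ℝ) * x j).symm
        _ = ∑ b : {i // i ∈ B}, (m b : ℝ) * x b :=
            Finset.sum_congr rfl fun b _ => by simp [hlam]
    have hmemS : lam ∈ S := by
      by_contra hcon
      apply hm
      have hz : ∀ x ∈ N, Fm lam x = 0 := by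
        intro x hx
        by_contra hne
        exact hcon ⟨x, hx, hne⟩
      have := hB (fun b => (m b : ℝ)) fun i => by
        rw [← hFl]
        exact hz _ (hspanN (hWs i))
      funext b
      have h1 := congrFun this b
      simpa using h1
    have := Set.mem_iInter₂.mp hwS lam hmemS
    rw [← hFl]
    exact this

end Pool.Agent.K3h24.ET
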